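import Pool.Agent.MP_39ed1d_co.H76.Wind

/-! Local structure of the leading zero of the deformed exponential. -/

namespace Pool.Agent.MP_39ed1d_co.H89

open Pool.Agent.MP_39ed1d_co.H76 Filter Metric Complex Topology

/-- Taylor series at the origin -/
noncomputable def T (f : ℂ → ℂ) : PowerSeries ℂ :=
  PowerSeries.mk fun n => iteratedDeriv n f 0 / n.factorial

theorem T_mul {f g : ℂ → ℂ} (hf : AnalyticAt ℂ f 0) (hg : AnalyticAt ℂ g 0) :
    T (fun z => f z * g z) = T f * T g := by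
  ext n
  rw [PowerSeries.coeff_mul, Finset.Nat.sum_antidiagonal_eq_sum_range_succ
    (fun i j => PowerSeries.coeff i (T f) * PowerSeries.coeff j (T g))]
  simp only [T, PowerSeries.coeff_mk]
  rw [iteratedDeriv_fun_mul hf.contDiffAt hg.contDiffAt, Finset.sum_div]
  refine Finset.sum_congr rfl fun i hi => ?_
  have hi' : i ≤ n := by have := Finset.mem_range.1 hi; omega
  have h1 : (n.factorial : ℂ) = n.choose i * i.factorial * (n - i).factorial := by
    exact_mod_cast (Nat.choose_mul_factorial_mul_factorial hi').symm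
  have h2 : (i.factorial : ℂ) ≠ 0 := by exact_mod_cast i.factorial_ne_zero
  have h3 : ((n - i).factorial : ℂ) ≠ 0 := by exact_mod_cast (n - i).factorial_ne_zero
  have h4 : (n.choose i : ℂ) ≠ 0 := by exact_mod_cast (Nat.choose_pos hi').ne'
  rw [h1]
  field_simp

theorem T_deriv (f : ℂ → ℂ) : T (deriv f) = PowerSeries.derivative ℂ (T f) := by
  ext n
  simp only [T, PowerSeries.coeff_derivative, PowerSeries.coeff_mk]
  have h : ((n : ℂ) + 1) ≠ 0 := by exact_mod_cast n.succ_ne_zero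
  have h2 : (n.factorial : ℂ) ≠ 0 := by exact_mod_cast n.factorial_ne_zero
  rw [iteratedDeriv_succ', Nat.factorial_succ]
  push_cast
  field_simp

theorem T_congr {f g : ℂ → ℂ} (h : f =ᶠ[𝓝 0] g) : T f = T g := by
  ext n
  simp only [T, PowerSeries.coeff_mk]
  rw [h.iteratedDeriv_eq n]

theorem iter_dE {y : ℂ} (hy : ‖y‖ ≤ 1) (n : ℕ) :
    iteratedDeriv n (dE y) = fun x => y ^ (n.choose 2) * dE y (y ^ n * x) := by
  induction n with
  | zero => funext x; simp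
  | succ n ih =>
    rw [iteratedDeriv_succ, ih]
    funext x
    have h1 := ((hasDerivAt_dE hy (y ^ n * x)).comp x
      ((hasDerivAt_id x).const_mul (y ^ n))).const_mul (y ^ (n.choose 2))
    have h3 : (n + 1).choose 2 = n + n.choose 2 := by
      rw [Nat.choose_succ_succ' n 1, Nat.choose_one_right]
    refine (h1.deriv).trans ?_
    rw [h3, pow_add, pow_succ, show y * (y ^ n * x) = y ^ n * y * x by ring]
    ring

theorem T_dE {y : ℂ} (hy : ‖y‖ ≤ 1) : T (dE y) = PowerSeries.mk (ee y) := by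
  ext n
  simp only [T, PowerSeries.coeff_mk, iter_dE hy, mul_zero, dE_zero, mul_one, ee]

/-- `x` is the only zero in the closed disc of radius `ρ`, and it is simple -/
def One (y : ℂ) (ρ : ℝ) (x : ℂ) : Prop := ‖x‖ < ρ ∧ ∃ g : ℂ → ℂ, Differentiable ℂ g ∧
  (∀ z, dE y z = (z - x) * g z) ∧ ∀ z, ‖z‖ ≤ ρ → g z ≠ 0

theorem One.ne_zero {y x : ℂ} {ρ : ℝ} (h : One y ρ x) : x ≠ 0 := by
  rintro rfl
  obtain ⟨-, g, -, h1, -⟩ := h
  have := h1 0
  rw [dE_zero] at this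
  simp at this

theorem One.eq_of_zero {y x z : ℂ} {ρ : ℝ} (h : One y ρ x) (hz : ‖z‖ ≤ ρ) (h0 : dE y z = 0) :
    z = x := by
  obtain ⟨-, g, -, h1, h2⟩ := h
  rw [h1] at h0
  exact sub_eq_zero.1 ((mul_eq_zero.1 h0).resolve_right (h2 z hz))

theorem One.zero {y x : ℂ} {ρ : ℝ} (h : One y ρ x) : dE y x = 0 := by
  obtain ⟨-, g, -, h1, -⟩ := h
  rw [h1]; simp

theorem One.unique {y x x' : ℂ} {ρ ρ' : ℝ} (h : One y ρ x) (h' : One y ρ' x') : x = x' := by
  rcases le_total ρ ρ' with hρ | hρ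
  · exact h'.eq_of_zero (h.1.le.trans hρ) h.zero
  · exact (h.eq_of_zero (h'.1.le.trans hρ) h'.zero).symm

theorem One.estimate {y x : ℂ} {ρ K : ℝ} (hy : ‖y‖ ≤ 1) (h : One y ρ x)
    (hK : ∀ z, ‖z‖ = ρ → ‖dE y (y * z) / dE y z - (z - x)⁻¹‖ ≤ K) (n : ℕ) :
    ‖(y - 1) ^ n * aa y n + x⁻¹ ^ (n + 1)‖ ≤ K / ρ ^ n := by
  have hx := h.ne_zero
  obtain ⟨hxρ, g, hg, h1, h2⟩ := h
  have hρ : 0 < ρ := (norm_nonneg _).trans_lt hxρ
  set H : ℂ → ℂ := fun z => deriv g z / g z with hH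
  have hder : ∀ z, dE y (y * z) = g z + (z - x) * deriv g z := fun z => by
    have e : dE y = fun z => (z - x) * g z := funext h1
    have d1 := ((hasDerivAt_id z).sub_const x).mul (hg z).hasDerivAt
    have d2 := hasDerivAt_dE hy z
    rw [e] at d2
    have := d2.unique d1
    rw [← e] at this
    simpa using this
  have key : ∀ z, ‖z‖ ≤ ρ → z ≠ x → dE y (y * z) = dE y z * (H z + (z - x)⁻¹) := fun z hz hzx => by
    have := h2 z hz
    have := sub_ne_zero.2 hzx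
    rw [hder, h1, hH]
    field_simp
    ring
  have hHd : DiffContOnCl ℂ H (ball 0 ρ) := by
    refine ⟨hg.deriv.differentiableOn.div hg.differentiableOn
      fun z hz => h2 z (mem_ball_zero_iff.1 hz).le, ?_⟩
    rw [closure_ball _ hρ.ne']
    exact hg.deriv.continuous.continuousOn.div hg.continuous.continuousOn
      fun z hz => h2 z (mem_closedBall_zero_iff.1 hz)
  have hb := norm_iteratedDeriv_le_of_forall_mem_sphere_norm_le n hρ hHd (C := K) fun z hz => by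
    have hz : ‖z‖ = ρ := by simpa using hz
    have hzx : z ≠ x := fun h => by rw [h] at hz; linarith
    have h0 : dE y z ≠ 0 := by rw [h1]; exact mul_ne_zero (sub_ne_zero.2 hzx) (h2 z hz.le)
    have := hK z hz
    rwa [key z hz.le hzx, mul_div_cancel_left₀ _ h0, add_sub_cancel_right] at this
  have hHa : AnalyticAt ℂ H 0 :=
    hHd.differentiableOn.analyticAt (isOpen_ball.mem_nhds (mem_ball_self hρ))
  have hwa : AnalyticAt ℂ (fun z : ℂ => (z - x)⁻¹) 0 :=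
    (analyticAt_id.sub analyticAt_const).inv (by simpa using hx)
  have hEa : AnalyticAt ℂ (dE y) 0 := (differentiable_dE hy).analyticAt 0
  have e1 : deriv (dE y) =ᶠ[𝓝 0] fun z => dE y z * (H + fun z => (z - x)⁻¹) z := by
    filter_upwards [closedBall_mem_nhds (0 : ℂ) hρ, eventually_ne_nhds hx.symm] with z hz hzx
    rw [(hasDerivAt_dE hy z).deriv, key z (mem_closedBall_zero_iff.1 hz) hzx]
    rfl
  have e2 := T_congr e1
  rw [T_deriv, T_mul hEa (hHa.add hwa), T_dE hy, ps_logderiv, mul_comm] at e2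
  have hE0 : PowerSeries.mk (ee y) ≠ 0 := fun h0 => by
    have := congrArg (PowerSeries.coeff 0) h0
    simp [ee_zero] at this
  have e3 := congrArg (PowerSeries.coeff n) (mul_left_cancel₀ hE0 e2)
  simp only [T, PowerSeries.coeff_mk] at e3
  rw [iteratedDeriv_add hHa.contDiffAt hwa.contDiffAt] at e3
  have e4 : iteratedDeriv n (fun z : ℂ => (z - x)⁻¹) 0 = -(n.factorial * x⁻¹ ^ (n + 1)) := by
    have := congrFun (iter_deriv_inv_linear_sub n (1 : ℂ) x) 0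
    simp only [one_mul, one_pow, mul_one, zero_sub] at this
    rw [iteratedDeriv_eq_iterate, this, show (-1 - (n : ℤ)) = -((n + 1 : ℕ) : ℤ) by push_cast; ring,
      zpow_neg, zpow_natCast, ← inv_pow, inv_neg, neg_pow x⁻¹, pow_succ (-1 : ℂ) n]
    have : ((-1 : ℂ) ^ n) * (-1) ^ n = 1 := by rw [← mul_pow]; simp
    linear_combination (-(n.factorial * x⁻¹ ^ (n + 1))) * this
  have h3 : (n.factorial : ℂ) ≠ 0 := by exact_mod_cast n.factorial_ne_zero
  have h4 : (0 : ℝ) < n.factorial := by exact_mod_cast n.factorial_pos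
  have e5 : (y - 1) ^ n * aa y n + x⁻¹ ^ (n + 1) = iteratedDeriv n H 0 / n.factorial := by
    rw [e3, e4]; field_simp; ring
  rw [e5, norm_div, Complex.norm_natCast, div_le_iff₀ h4]
  refine hb.trans (le_of_eq ?_)
  ring

theorem cont_dE : Continuous fun p : closedBall (0 : ℂ) 1 × ℂ => dE p.1 p.2 := by
  refine continuous_iff_continuousAt.2 fun p => ?_
  have h := (continuousOn_dE (‖p.2‖ + 1)).comp
    (f := fun q : closedBall (0 : ℂ) 1 × ℂ => ((q.1 : ℂ), q.2))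
    (s := Set.univ ×ˢ closedBall 0 (‖p.2‖ + 1)) (by fun_prop)
    (fun q hq => ⟨q.1.2, hq.2⟩)
  refine h.continuousAt (prod_mem_nhds univ_mem ?_)
  exact mem_of_superset (isOpen_ball.mem_nhds (mem_ball_zero_iff.2 (lt_add_one _)))
    ball_subset_closedBall

theorem loc {y0 x0 : ℂ} {ρ : ℝ} (hy0 : ‖y0‖ ≤ 1) (h : One y0 ρ x0) :
    ∃ K ρ' : ℝ, 0 < ρ' ∧ ρ' < ρ ∧ 0 ≤ K ∧ ∀ ε : ℝ, 0 < ε → ∃ δ : ℝ, 0 < δ ∧ ∀ y : ℂ, ‖y‖ ≤ 1 →
      ‖y - y0‖ < δ → ∃ x, One y ρ x ∧ ‖x - x0‖ < ε ∧ ‖x‖ ≤ ρ' ∧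
        ∀ n, ‖(y - 1) ^ n * aa y n + x⁻¹ ^ (n + 1)‖ ≤ K / ρ ^ n := by
  have hρ : 0 < ρ := (norm_nonneg _).trans_lt h.1
  set Y0 : closedBall (0 : ℂ) 1 := ⟨y0, mem_closedBall_zero_iff.2 hy0⟩ with hY0
  set F : closedBall (0 : ℂ) 1 × ℂ → ℂ := fun p => dE p.1 (p.1 * p.2) / dE p.1 p.2 with hF
  have hne : ∀ z ∈ sphere (0 : ℂ) ρ, dE y0 z ≠ 0 := fun z hz h0 => by
    have hz : ‖z‖ = ρ := by simpa using hz
    have := h.eq_of_zero hz.le h0
    have h1 := h.1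
    rw [← this] at h1; linarith
  have hc2 : Continuous fun p : closedBall (0 : ℂ) 1 × ℂ => dE p.1 (p.1 * p.2) :=
    cont_dE.comp (f := fun p : closedBall (0 : ℂ) 1 × ℂ => (p.1, (p.1 : ℂ) * p.2)) (by fun_prop)
  have hFc : ∀ z ∈ sphere (0 : ℂ) ρ, ContinuousAt F (Y0, z) := fun z hz =>
    hc2.continuousAt.div cont_dE.continuousAt (hne z hz)
  have hFs : ∀ Y : closedBall (0 : ℂ) 1, (∀ z ∈ sphere (0 : ℂ) ρ, dE Y z ≠ 0) →
      ContinuousOn (fun z => F (Y, z)) (sphere 0 ρ) := fun Y hY =>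
    (hc2.comp (f := fun z => (Y, z)) (by fun_prop)).continuousOn.div
      (cont_dE.comp (f := fun z => (Y, z)) (by fun_prop)).continuousOn hY
  obtain ⟨M, hM⟩ := (isCompact_sphere (0 : ℂ) ρ).exists_bound_of_continuousOn (hFs Y0 hne)
  have ev1 : ∀ᶠ Y in 𝓝 Y0, ∀ z ∈ sphere (0 : ℂ) ρ, ‖F (Y, z) - F (Y0, z)‖ < 1 / (2 * ρ) := by
    refine (isCompact_sphere (0 : ℂ) ρ).eventually_forall_of_forall_eventually
      (P := fun Y z => ‖F (Y, z) - F (Y0, z)‖ < 1 / (2 * ρ)) fun z hz => ?_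
    have c1 : ContinuousAt (fun p : closedBall (0 : ℂ) 1 × ℂ => F (Y0, p.2)) (Y0, z) :=
      ContinuousAt.comp (f := fun p : closedBall (0 : ℂ) 1 × ℂ => (Y0, p.2)) (g := F)
        (hFc z hz) (by fun_prop)
    have c2 := ((hFc z hz).sub c1).norm
    exact c2.eventually_lt continuousAt_const (by simp; positivity)
  have ev2 : ∀ ε : ℝ, 0 < ε → ∀ᶠ Y in 𝓝 Y0, ∀ z ∈ closedBall (0 : ℂ) ρ \ ball x0 ε,
      dE (Y : closedBall (0 : ℂ) 1) z ≠ 0 := fun ε hε => by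
    refine ((isCompact_closedBall (0 : ℂ) ρ).diff isOpen_ball).eventually_forall_of_forall_eventually
      (P := fun (Y : closedBall (0 : ℂ) 1) z => dE Y z ≠ 0) fun z hz => ?_
    refine cont_dE.continuousAt.eventually_ne fun h0 => hz.2 ?_
    rw [h.eq_of_zero (mem_closedBall_zero_iff.1 hz.1) h0]
    exact mem_ball_self hε
  set ρ' : ℝ := (‖x0‖ + ρ) / 2 with hρ'
  have h1 := h.1
  have hM0 : 0 ≤ M := (norm_nonneg _).trans (hM ρ (by simp [abs_of_pos hρ]))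
  have hd : 0 < ρ - ρ' := by rw [hρ']; linarith
  refine ⟨M + 1 / (2 * ρ) + (ρ - ρ')⁻¹, ρ', by rw [hρ']; positivity, by linarith, by positivity,
    fun ε hε => ?_⟩
  have hε' : 0 < min ε (ρ - ρ') := lt_min hε hd
  obtain ⟨δ, hδ, hall⟩ := Metric.eventually_nhds_iff.1 (ev1.and (ev2 _ hε'))
  refine ⟨δ, hδ, fun y hy hyy => ?_⟩
  obtain ⟨a1, a2⟩ := hall (y := ⟨y, mem_closedBall_zero_iff.2 hy⟩)
    (by rw [Subtype.dist_eq, dist_eq_norm]; exact hyy)
  have a3 : ∀ z, ‖z‖ ≤ ρ → dE y z = 0 → ‖z - x0‖ < min ε (ρ - ρ') := fun z hz h0 => by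
    by_contra hc
    exact a2 z ⟨mem_closedBall_zero_iff.2 hz, fun hb => hc (mem_ball_iff_norm.1 hb)⟩ h0
  have a4 : ∀ z, ‖z‖ ≤ ρ → dE y z = 0 → ‖z‖ ≤ ρ' := fun z hz h0 => by
    have := (a3 z hz h0).trans_le (min_le_right _ _)
    have h2 := norm_sub_norm_le z x0
    rw [hρ'] at this ⊢; linarith
  obtain ⟨s, g, b1, b2, b3, b4⟩ := factor (dE y) (differentiable_dE hy)
    (by rw [dE_zero]; exact one_ne_zero) ρ hρ
  have b5 : ∀ a ∈ s, dE y a = 0 := fun a ha => by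
    rw [b3, Multiset.prod_eq_zero (Multiset.mem_map.2 ⟨a, ha, sub_self a⟩), zero_mul]
  have w1 := wind hρ (φ := fun _ => 1) diffContOnCl_const b2 b4 s (dE y)
    (fun a ha => (a4 a (b1 a ha) (b5 a ha)).trans_lt (by linarith)) b3
  obtain ⟨-, g0, c2, c3, c4⟩ := h
  have w0 := wind hρ (φ := fun _ => 1) diffContOnCl_const c2 c4 {x0} (dE y0)
    (fun a ha => by rw [Multiset.mem_singleton.1 ha]; exact h1) (fun z => by simpa using c3 z)
  have hney : ∀ z ∈ sphere (0 : ℂ) ρ, dE y z ≠ 0 := fun z hz h0 => by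
    have hz : ‖z‖ = ρ := by simpa using hz
    have := a4 z hz.le h0
    linarith
  simp only [one_mul, (hasDerivAt_dE hy _).deriv, (hasDerivAt_dE hy0 _).deriv, Multiset.map_const',
    Multiset.sum_replicate, Multiset.card_singleton, nsmul_eq_mul, mul_one] at w0 w1
  have i1 := ContinuousOn.circleIntegrable hρ.le (hFs ⟨y, mem_closedBall_zero_iff.2 hy⟩ hney)
  have i0 := ContinuousOn.circleIntegrable hρ.le (hFs Y0 hne)
  have w2 := circleIntegral.norm_integral_le_of_norm_le_const hρ.le fun z hz => (a1 z hz).le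
  rw [circleIntegral.integral_sub i1 i0] at w2
  simp only [hF, hY0] at w2
  rw [w0, w1, ← mul_sub, norm_mul] at w2
  have w3 : ‖(2 * Real.pi * I : ℂ)‖ = 2 * Real.pi := by simp [Real.pi_pos.le]
  have w4 : ‖((s.card : ℂ) - (1 : ℕ))‖ ≤ 1 / 2 := by
    rw [w3, mul_assoc (2 * Real.pi) ρ] at w2
    have := le_of_mul_le_mul_left w2 Real.two_pi_pos
    refine this.trans (le_of_eq ?_)
    field_simp
  have w5 : s.card = 1 := by
    have e : ((s.card : ℂ) - (1 : ℕ)) = (((s.card : ℤ) - 1 : ℤ) : ℂ) := by push_cast; ring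
    rw [e, Complex.norm_intCast] at w4
    have : |(s.card : ℤ) - 1| < 1 := by
      have : ((|(s.card : ℤ) - 1| : ℤ) : ℝ) < 1 := by rw [Int.cast_abs]; linarith
      exact_mod_cast this
    rw [abs_lt] at this
    omega
  obtain ⟨x, rfl⟩ := Multiset.card_eq_one.1 w5
  have hx0 := b5 x (Multiset.mem_singleton_self x)
  have hx1 := b1 x (Multiset.mem_singleton_self x)
  have hx2 := a4 x hx1 hx0
  have hO : One y ρ x := ⟨by linarith, g, b2, fun z => by simpa using b3 z, b4⟩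
  refine ⟨x, hO, (a3 x hx1 hx0).trans_le (min_le_left _ _), hx2, hO.estimate hy fun z hz => ?_⟩
  have hz' : z ∈ sphere (0 : ℂ) ρ := by simpa using hz
  refine (norm_sub_le _ _).trans (add_le_add ?_ ?_)
  · have d1 := a1 z hz'
    have d2 := hM z hz'
    have d3 := norm_sub_norm_le (F (⟨y, mem_closedBall_zero_iff.2 hy⟩, z)) (F (Y0, z))
    have : ‖F (⟨y, mem_closedBall_zero_iff.2 hy⟩, z)‖ ≤ M + 1 / (2 * ρ) := by linarith
    exact this
  · rw [norm_inv]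
    refine inv_anti₀ hd ?_
    linarith [norm_sub_norm_le z x]

theorem ratio_est {y x : ℂ} {ρ ρ' K : ℝ} (hy : y ≠ 1) (hx : x ≠ 0) (hρ : 0 < ρ) (hK : 0 ≤ K)
    (hx' : ‖x‖ ≤ ρ') {n : ℕ} (h : ‖(y - 1) ^ n * aa y n + x⁻¹ ^ (n + 1)‖ ≤ K / ρ ^ n) :
    ‖aa y n / ((1 - y) * ((y - 1) * x)⁻¹ ^ (n + 1)) - 1‖ ≤ K * ρ' * (ρ' / ρ) ^ n := by
  have h1 : y - 1 ≠ 0 := sub_ne_zero.2 hy
  have h2 : 1 - y ≠ 0 := sub_ne_zero.2 hy.symm
  have e : aa y n / ((1 - y) * ((y - 1) * x)⁻¹ ^ (n + 1)) - 1 =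
      -(((y - 1) ^ n * aa y n + x⁻¹ ^ (n + 1)) * x ^ (n + 1)) := by
    simp only [inv_pow, mul_pow, pow_succ]
    field_simp
    ring
  rw [e, norm_neg, norm_mul, norm_pow]
  have h0 := norm_nonneg x
  calc _ ≤ K / ρ ^ n * ρ' ^ (n + 1) := by gcongr
    _ = _ := by rw [div_pow, pow_succ]; ring

theorem near : Near := by
  have hO : One 0 2 (-1) := by
    refine ⟨by simp, fun _ => 1, differentiable_const _, fun z => ?_, fun _ _ => one_ne_zero⟩
    rw [dE, tsum_eq_sum (s := Finset.range 2) fun m hm => ?_]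
    · simp [Finset.sum_range_succ, ee]; ring
    · have hm : 2 ≤ m := by rw [Finset.mem_range] at hm; omega
      simp [ee, (Nat.choose_pos hm).ne']
  obtain ⟨K, ρ', h1, h2, hK, h3⟩ := loc (by simp) hO
  obtain ⟨δ, hδ, h4⟩ := h3 (1 / 10) (by norm_num)
  choose! X hX using h4
  set r : ℝ := min δ (1 / 10) with hr
  have hr0 : 0 < r := lt_min hδ (by norm_num)
  have hr1 : r ≤ 1 / 10 := min_le_right _ _
  have hX' := fun (y : ℂ) (hy : ‖y‖ < r) => hX y (by linarith)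
    (by rw [sub_zero]; exact hy.trans_le (min_le_left _ _))
  set μ : ℂ → ℂ := fun y => ((y - 1) * X y)⁻¹ with hμ
  have hy1 : ∀ y : ℂ, ‖y‖ < r → y ≠ 1 := fun y hy h => by
    rw [h, norm_one] at hy; linarith
  have hμ1 : ∀ y : ℂ, ‖y‖ < r → ‖μ y - 1‖ ≤ 1 / 2 := fun y hy => by
    obtain ⟨a1, a2, -, -⟩ := hX' y hy
    rw [sub_neg_eq_add] at a2
    have a3 : ‖X y‖ ≤ 11 / 10 := by
      have := norm_sub_le (X y + 1) 1
      rw [add_sub_cancel_right, norm_one] at this; linarith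
    have a4 : ‖1 - (y - 1) * X y‖ ≤ 1 / 4 := by
      rw [show 1 - (y - 1) * X y = (X y + 1) - y * X y by ring]
      refine (norm_sub_le _ _).trans ?_
      rw [norm_mul]
      nlinarith [norm_nonneg y, norm_nonneg (X y)]
    have a5 : 3 / 4 ≤ ‖(y - 1) * X y‖ := by
      have := norm_sub_norm_le 1 (1 - (y - 1) * X y)
      rw [sub_sub_cancel, norm_one] at this; linarith
    have a6 : (y - 1) * X y ≠ 0 := norm_pos_iff.1 (by linarith)
    rw [show μ y - 1 = (1 - (y - 1) * X y) / ((y - 1) * X y) by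
        rw [sub_div, div_self a6, one_div],
      norm_div, div_le_iff₀ (by linarith)]
    linarith
  have hγ0 : 0 < ρ' / 2 := by positivity
  have hγ1 : ρ' / 2 < 1 := by linarith
  have hq : ∀ y : ℂ, ‖y‖ < r → ∀ n,
      ‖aa y n / ((1 - y) * μ y ^ (n + 1)) - 1‖ ≤ K * ρ' * (ρ' / 2) ^ n := fun y hy n => by
    obtain ⟨a1, -, a3, a4⟩ := hX' y hy
    exact ratio_est (hy1 y hy) a1.ne_zero two_pos hK a3 (a4 n)
  have hμ0 : ∀ y : ℂ, ‖y‖ < r → μ y ≠ 0 := fun y hy =>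
    inv_ne_zero (mul_ne_zero (sub_ne_zero.2 (hy1 y hy)) (hX' y hy).1.ne_zero)
  have hlim : Tendsto (fun n : ℕ => K * ρ' * (ρ' / 2) ^ n) atTop (𝓝 0) := by
    simpa using (tendsto_pow_atTop_nhds_zero_of_lt_one hγ0.le hγ1).const_mul (K * ρ')
  have hden : ∀ y : ℂ, ‖y‖ < r → ∀ n, (1 - y) * μ y ^ (n + 1) ≠ 0 := fun y hy n =>
    mul_ne_zero (sub_ne_zero.2 (hy1 y hy).symm) (pow_ne_zero _ (hμ0 y hy))
  have hhalf : ∀ y : ℂ, ‖y‖ < r → ∀ n : ℕ, K * ρ' * (ρ' / 2) ^ n < 1 / 2 →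
      1 / 2 ≤ ‖aa y n / ((1 - y) * μ y ^ (n + 1))‖ := fun y hy n hn => by
    have := norm_sub_norm_le 1 (aa y n / ((1 - y) * μ y ^ (n + 1)))
    rw [norm_sub_rev, norm_one] at this
    linarith [hq y hy n]
  refine ⟨r, K * ρ' * 3, ρ' / 2, μ, hr0, by linarith, hγ0, hγ1, ?_, ?_,
    fun y hy => ⟨hμ1 y hy, fun n => ?_⟩⟩
  · refine TendstoLocallyUniformlyOn.differentiableOn (φ := atTop)
      (F := fun (n : ℕ) y => aa y (n + 1) / aa y n)
      (TendstoUniformlyOn.tendstoLocallyUniformlyOn ?_) ?_ isOpen_ball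
    · rw [Metric.tendstoUniformlyOn_iff]
      intro ε hε
      filter_upwards [hlim.eventually_lt_const (show (0 : ℝ) < 1 / 2 by norm_num),
        hlim.eventually_lt_const (show (0 : ℝ) < ε / 6 by positivity)] with n a1 a2 y hy
      have hy := mem_ball_zero_iff.1 hy
      have b1 := hhalf y hy n a1
      have b2 := hq y hy n
      have b3 := hq y hy (n + 1)
      have b4 : K * ρ' * (ρ' / 2) ^ (n + 1) ≤ K * ρ' * (ρ' / 2) ^ n := by
        rw [pow_succ]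
        have : 0 ≤ K * ρ' * (ρ' / 2) ^ n := by positivity
        nlinarith
      set q0 := aa y n / ((1 - y) * μ y ^ (n + 1)) with hq0
      set q1 := aa y (n + 1) / ((1 - y) * μ y ^ (n + 1 + 1)) with hq1
      have b5 : q0 ≠ 0 := norm_pos_iff.1 (by linarith)
      have b6 : aa y n ≠ 0 := fun h => b5 (by rw [hq0, h, zero_div])
      have b7 : μ y - aa y (n + 1) / aa y n = μ y * ((q0 - 1) - (q1 - 1)) / q0 := by
        have := hμ0 y hy
        have := sub_ne_zero.2 (hy1 y hy).symm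
        rw [hq0, hq1]
        field_simp
        ring
      have b8 : ‖μ y‖ ≤ 3 / 2 := by
        have := norm_add_le (μ y - 1) 1
        rw [sub_add_cancel, norm_one] at this
        linarith [hμ1 y hy]
      have b9 := norm_sub_le (q0 - 1) (q1 - 1)
      rw [dist_eq_norm, b7, norm_div, norm_mul, div_lt_iff₀ (by linarith)]
      have := norm_nonneg (q0 - 1 - (q1 - 1))
      nlinarith
    · filter_upwards [hlim.eventually_lt_const (show (0 : ℝ) < 1 / 2 by norm_num)] with n a1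
      refine (differentiable_aa _).differentiableOn.div (differentiable_aa _).differentiableOn
        fun y hy h => ?_
      have := hhalf y (mem_ball_zero_iff.1 hy) n a1
      rw [h, zero_div, norm_zero] at this
      linarith
  · have := (hX' 0 (by simpa using hr0)).1.unique hO
    simp [hμ, this]
  · have b1 := hq y hy n
    have b2 := hden y hy n
    have b8 : ‖μ y‖ ≤ 3 / 2 := by
      have := norm_add_le (μ y - 1) 1
      rw [sub_add_cancel, norm_one] at this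
      linarith [hμ1 y hy]
    have b9 : ‖1 - y‖ ≤ 2 := by
      have := norm_sub_le 1 y
      rw [norm_one] at this; linarith
    rw [show aa y n - (1 - y) * μ y ^ (n + 1) = (aa y n / ((1 - y) * μ y ^ (n + 1)) - 1) *
      ((1 - y) * μ y ^ (n + 1)) by rw [sub_mul _ 1, div_mul_cancel₀ _ b2, one_mul],
      norm_mul, norm_mul, norm_pow, pow_succ ‖μ y‖]
    calc _ ≤ K * ρ' * (ρ' / 2) ^ n * (2 * (‖μ y‖ ^ n * (3 / 2))) := by gcongr
      _ = _ := by ring

theorem arc_of_BI (h : BI) : Arc := by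
  have conv : ∀ (y : ℂ) (R : ℝ) (t0 : ℂ) (g : ℂ → ℂ), y ≠ 1 → ‖t0‖ < R → Differentiable ℂ g →
      (∀ t, dE y (t / (y - 1)) = (t - t0) * g t) → (∀ t, ‖t‖ ≤ R → g t ≠ 0) →
      One y (R / ‖y - 1‖) (t0 / (y - 1)) := fun y R t0 g hy a1 a2 a3 a4 => by
    have h1 : y - 1 ≠ 0 := sub_ne_zero.2 hy
    have h2 : 0 < ‖y - 1‖ := norm_pos_iff.2 h1
    refine ⟨by rw [norm_div]; gcongr, fun z => (y - 1) * g ((y - 1) * z), by fun_prop,
      fun z => ?_, fun z hz => mul_ne_zero h1 (a4 _ ?_)⟩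
    · have := a3 ((y - 1) * z)
      rw [mul_div_cancel_left₀ _ h1] at this
      rw [this]; field_simp
    · rw [norm_mul, mul_comm]; exact (le_div_iff₀ h2).1 hz
  have ex : ∀ y : ℂ, ‖y‖ = 1 → y ≠ 1 → ∃ x, ∃ ρ, One y ρ x := fun y hy hy1 => by
    obtain ⟨δ, -, h1⟩ := h 1 one_pos
    obtain ⟨R, t0, g, a1, a2, a3, a4, -⟩ := h1 y hy hy1
    exact ⟨_, _, conv y R t0 g hy1 a1 a2 a3 a4⟩
  choose! X ρ hX using ex
  have hn : ∀ θ : ℝ, ‖exp (θ * I)‖ = 1 := norm_exp_ofReal_mul_I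
  have hne : ∀ θ ∈ Set.Ioo 0 (2 * Real.pi), exp (θ * I) ≠ 1 := fun θ hθ h1 => by
    obtain ⟨k, hk⟩ := exp_eq_one_iff.1 h1
    have h2 : θ = k * (2 * Real.pi) := by
      have : (θ : ℂ) = k * (2 * Real.pi) :=
        mul_right_cancel₀ I_ne_zero (by rw [hk]; ring)
      exact_mod_cast this
    have h3 := hθ.1
    have h4 := hθ.2
    rw [h2] at h3 h4
    have h5 : (0 : ℝ) < k := by nlinarith [Real.pi_pos]
    have h6 : (k : ℝ) < 1 := by nlinarith [Real.pi_pos]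
    have h7 : (0 : ℤ) < k := by exact_mod_cast h5
    have h8 : k < (1 : ℤ) := by exact_mod_cast h6
    omega
  have hce : Continuous fun θ : ℝ => exp (θ * I) := by fun_prop
  have hloc : ∀ θ0 ∈ Set.Ioo (0 : ℝ) (2 * Real.pi), ∃ K γ : ℝ, 0 ≤ γ ∧ γ < 1 ∧ ∀ ε : ℝ, 0 < ε →
      ∀ᶠ θ : ℝ in 𝓝[Set.Ioo 0 (2 * Real.pi)] θ0, ‖X (exp (θ * I)) - X (exp (θ0 * I))‖ < ε ∧
        ∀ n, ‖aa (exp (θ * I)) n / ((1 - exp (θ * I)) *
          ((exp (θ * I) - 1) * X (exp (θ * I)))⁻¹ ^ (n + 1)) - 1‖ ≤ K * γ ^ n := fun θ0 hθ0 => by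
    have hO := hX _ (hn θ0) (hne θ0 hθ0)
    obtain ⟨K, ρ', h1, h2, hK, h3⟩ := loc (hn θ0).le hO
    have h5 := h1.trans h2
    refine ⟨K * ρ', ρ' / ρ (exp (θ0 * I)), by positivity, (div_lt_one h5).2 h2, fun ε hε => ?_⟩
    obtain ⟨δ, hδ, h4⟩ := h3 ε hε
    filter_upwards [self_mem_nhdsWithin,
      mem_nhdsWithin_of_mem_nhds (hce.continuousAt (x := θ0) (ball_mem_nhds _ hδ))] with θ hθ hb
    obtain ⟨x, a1, a2, a3, a4⟩ := h4 _ (hn θ).le (mem_ball_iff_norm.1 hb)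
    rw [(hX _ (hn θ) (hne θ hθ)).unique a1]
    exact ⟨a2, fun n => ratio_est (hne θ hθ) a1.ne_zero h5 hK a3 (a4 n)⟩
  have hval : ∀ θ ∈ Set.Ioo 0 (2 * Real.pi), ∀ (R : ℝ) (t0 : ℂ) (g : ℂ → ℂ), ‖t0‖ < R →
      Differentiable ℂ g → (∀ t, dE (exp (θ * I)) (t / (exp (θ * I) - 1)) = (t - t0) * g t) →
      (∀ t, ‖t‖ ≤ R → g t ≠ 0) → (exp (θ * I) - 1) * X (exp (θ * I)) = t0 ∧ t0 ≠ 0 :=
    fun θ hθ R t0 g a1 a2 a3 a4 => by
      have hO := conv _ R t0 g (hne θ hθ) a1 a2 a3 a4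
      have h1 := sub_ne_zero.2 (hne θ hθ)
      refine ⟨?_, fun h0 => hO.ne_zero (by rw [h0, zero_div])⟩
      rw [(hX _ (hn θ) (hne θ hθ)).unique hO, mul_div_cancel₀ _ h1]
  refine ⟨fun θ => ((exp (θ * I) - 1) * X (exp (θ * I)))⁻¹, ?_, fun θ hθ => ?_, fun η hη => ?_, ?_⟩
  · refine ContinuousOn.inv₀ ((hce.sub continuous_const).continuousOn.mul fun θ0 hθ0 => ?_)
      fun θ hθ => mul_ne_zero (sub_ne_zero.2 (hne θ hθ)) (hX _ (hn θ) (hne θ hθ)).ne_zero
    obtain ⟨K, γ, -, -, h1⟩ := hloc θ0 hθ0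
    refine Metric.tendsto_nhds.2 fun ε hε => (h1 ε hε).mono fun θ hθ => ?_
    rw [dist_eq_norm]; exact hθ.1
  · obtain ⟨δ, -, h1⟩ := h 1 one_pos
    obtain ⟨R, t0, g, a1, a2, a3, a4, a5, -⟩ := h1 _ (hn θ) (hne θ hθ)
    obtain ⟨b1, b2⟩ := hval θ hθ R t0 g a1 a2 a3 a4
    have e : -(t0⁻¹ * exp (θ * I)) = (-(t0 / exp (θ * I)))⁻¹ := by
      rw [inv_neg, inv_div, div_eq_inv_mul]
    simp only [b1, e]
    set w := -(t0 / exp (θ * I)) with hw
    have hw0 : 0 < normSq w := normSq_pos.2 (slitPlane_ne_zero a5)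
    rw [mem_slitPlane_iff] at a5 ⊢
    rw [inv_re, inv_im]
    rcases a5 with a5 | a5
    · exact Or.inl (div_pos a5 hw0)
    · exact Or.inr (div_ne_zero (neg_ne_zero.2 a5) hw0.ne')
  · obtain ⟨δ, hδ, h1⟩ := h η hη
    refine ⟨δ, hδ, fun θ hθ hθδ => ?_⟩
    obtain ⟨R, t0, g, a1, a2, a3, a4, -, a6⟩ := h1 _ (hn θ) (hne θ hθ)
    obtain ⟨b1, b2⟩ := hval θ hθ R t0 g a1 a2 a3 a4
    have b3 : ‖exp (θ * I) - 1‖ < δ := by
      rcases hθδ with h2 | h2
      · have := Real.norm_exp_I_mul_ofReal_sub_one_le (x := θ)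
        rw [mul_comm, Real.norm_of_nonneg hθ.1.le] at this
        linarith
      · have := Real.norm_exp_I_mul_ofReal_sub_one_le (x := θ - 2 * Real.pi)
        rw [mul_comm, Real.norm_of_nonpos (by linarith [hθ.2])] at this
        have e : exp (((θ - 2 * Real.pi : ℝ) : ℂ) * I) = exp (θ * I) := by
          push_cast
          rw [sub_mul, exp_sub, exp_two_pi_mul_I, div_one]
        rw [e] at this
        linarith
    simp only [b1]
    rw [norm_inv, show 1 - η = -(η - 1) by ring, Real.exp_neg]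
    exact inv_anti₀ (norm_pos_iff.2 b2) (a1.le.trans (a6 b3))
  · rw [Metric.tendstoLocallyUniformlyOn_iff]
    intro ε hε θ0 hθ0
    obtain ⟨K, γ, h0, h1, h2⟩ := hloc θ0 hθ0
    have hlim : Tendsto (fun n : ℕ => K * γ ^ n) atTop (𝓝 0) := by
      simpa using (tendsto_pow_atTop_nhds_zero_of_lt_one h0 h1).const_mul K
    refine ⟨_, h2 1 one_pos, ?_⟩
    filter_upwards [hlim.eventually_lt_const hε] with n hn θ hθ
    rw [dist_comm, dist_eq_norm]
    exact (hθ.2 n).trans_lt hn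

end Pool.Agent.MP_39ed1d_co.H89
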